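import Pool.Agent.W622.BK.Stm

/-! # Bloch-Kato Lie algebras: a nonzero form in `D_m` gives nonzero cohomology -/

set_option autoImplicit false

namespace Pool.Agent.W976.BK

open Module Pool.Agent.W622.BK

universe u

section

variable {k : Type u} [Field k] {L : Type u} [LieRing L] [LieAlgebra k L]
variable {E : Type u} [AddCommGroup E] [Module k E] [FiniteDimensional k E]

/-- evaluation of a form at a point -/
noncomputable def evG (k : Type u) [Field k] (E : Type u) [AddCommGroup E] [Module k E] {n : ℕ}
    (v : Fin n → E) : G k E n →ₗ[k] k where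
  toFun f := f v
  map_add' _ _ := rfl
  map_smul' _ _ := rfl

/-- a sum over ordered pairs of a symmetric function that is zero on the diagonal -/
lemma sum_lt_eq (N : ℕ) (a : Fin N → Fin N → k) (hs : ∀ p q, a q p = a p q)
    (h0 : ∀ p, a p p = 0) :
    ∑ p : Fin N, ∑ q : Fin N, a p q =
      2 * ∑ p : Fin N, ∑ q : Fin N, (if p < q then a p q else 0) := by
  have h1 : ∀ p q : Fin N, a p q = (if p < q then a p q else 0) + (if q < p then a p q else 0) := by
    intro p q
    rcases lt_trichotomy p q with h | h | h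
    · rw [if_pos h, if_neg (not_lt.2 h.le), add_zero]
    · subst h
      rw [if_neg (lt_irrefl _), h0, add_zero]
    · rw [if_pos h, if_neg (not_lt.2 h.le), zero_add]
  have h2 : ∑ p : Fin N, ∑ q : Fin N, (if q < p then a p q else 0) =
      ∑ p : Fin N, ∑ q : Fin N, (if p < q then a p q else 0) := by
    rw [Finset.sum_comm]
    refine Finset.sum_congr rfl fun p _ => Finset.sum_congr rfl fun q _ => ?_
    rw [hs p q]
  calc ∑ p : Fin N, ∑ q : Fin N, a p q
      = ∑ p : Fin N, ∑ q : Fin N, ((if p < q then a p q else 0) + (if q < p then a p q else 0)) :=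
        Finset.sum_congr rfl fun p _ => Finset.sum_congr rfl fun q _ => h1 p q
    _ = ∑ p : Fin N, ∑ q : Fin N, (if p < q then a p q else 0) +
        ∑ p : Fin N, ∑ q : Fin N, (if q < p then a p q else 0) := by
        simp only [Finset.sum_add_distrib]
    _ = _ := by rw [h2, two_mul]

end

theorem t_NZ : S_NZ.{u} := by
  intro hALT hNZA hNZB hDALT k _ L _ _ E _ _ _ j pr h2 hpr hbr n hD
  obtain ⟨w, hw, hw0⟩ := (Submodule.ne_bot_iff _).1 hD
  have hAlt : Alt (Rj (L := L) (E := E) j) := fun β hβ e => hβ.1 e
  obtain ⟨w', hw'⟩ := hDALT hALT k E (Rj j) ⊤ (n + 2) w hAlt hw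
  obtain ⟨u, hu⟩ : ∃ u, w u ≠ 0 := by
    by_contra hcon
    push Not at hcon
    exact hw0 (MultilinearMap.ext hcon)
  let Φ : L →ₗ[k] (Fin (n + 2) → k) :=
    LinearMap.pi (fun t => (LinearMap.applyₗ (u t) : (E →ₗ[k] k) →ₗ[k] k) ∘ₗ pr)
  let F : L [⋀^Fin (n + 2)]→ₗ[k] k := (Matrix.detRowAlternating).compLinearMap Φ
  have hF : ∀ x, F x = (Matrix.of fun s t => pr (x s) (u t)).det := fun x => rfl
  have hcoc : ∀ x, dCE k L F x = 0 := by
    intro x
    unfold dCE
    refine Finset.sum_eq_zero fun i _ => Finset.sum_eq_zero fun jj _ => ?_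
    split_ifs
    · have h0 : F (Fin.cons ⁅x i, x jj.succ⁆ (fun t : Fin (n + 1) =>
          x (i.succAbove (jj.succAbove t)))) = 0 := by
        show Matrix.detRowAlternating _ = 0
        refine AlternatingMap.map_coord_zero _ 0 ?_
        show Φ ⁅x i, x jj.succ⁆ = 0
        ext t
        show pr ⁅x i, x jj.succ⁆ (u t) = 0
        rw [hbr, LinearMap.zero_apply]
      rw [h0, mul_zero]
    · rfl
  have hFc : (fun x => F x) ∈ cocycles k L (n + 2) := ⟨F, fun x => rfl, hcoc⟩
  rw [Submodule.Quotient.nontrivial_iff]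
  intro htop
  have hmem : (⟨fun x => F x, hFc⟩ : cocycles k L (n + 2)) ∈
      (coboundaries k L (n + 2)).comap (cocycles k L (n + 2)).subtype := by
    rw [htop]; exact Submodule.mem_top
  obtain ⟨g, hg⟩ : ∃ g : L [⋀^Fin (n + 1)]→ₗ[k] k, ∀ x, F x = dCE k L g x := hmem
  set b := finBasis k E with hb
  -- the pairing
  have e1 : w' u = ∑ I : Fin (n + 2) ↪o Fin (finrank k E), w' (fun t => b (I t)) *
      F (fun s => j (b.coord (I s))) := by
    rw [hNZB k E (finrank k E) (n + 2) b w' u]
    refine Finset.sum_congr rfl fun I _ => ?_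
    rw [hF]
    simp only [hpr]
  have e2 : w' u = ∑ I : Fin (n + 2) ↪o Fin (finrank k E), ∑ i : Fin (n + 2), ∑ jj : Fin (n + 1),
      (if (i : ℕ) ≤ (jj : ℕ) then
        w' (fun t => b (I t)) * ((-1 : k) ^ ((i : ℕ) + (jj : ℕ) + 1) *
          g.curryLeft ⁅j (b.coord (I i)), j (b.coord (I jj.succ))⁆
            (fun t : Fin n => j (b.coord (I (i.succAbove (jj.succAbove t))))))
      else 0) := by
    rw [e1]
    refine Finset.sum_congr rfl fun I _ => ?_
    rw [hg]
    unfold dCE
    rw [Finset.mul_sum]
    refine Finset.sum_congr rfl fun i _ => ?_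
    rw [Finset.mul_sum]
    refine Finset.sum_congr rfl fun jj _ => ?_
    split_ifs
    · rfl
    · rw [mul_zero]
  have e3 := hNZA k (finrank k E) n (fun v => w' (fun t => b (v t)))
    (fun p q J => g.curryLeft ⁅j (b.coord p), j (b.coord q)⁆ (fun t : Fin n => j (b.coord (J t))))
    (by
      intro v hv
      apply AlternatingMap.map_eq_zero_of_not_injective
      intro hinj
      apply hv
      intro s t hst
      exact hinj (by show b (v s) = b (v t); rw [hst]))
    (by
      intro v σ
      have := w'.map_perm (fun t => b (v t)) σ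
      have h3 : (fun t => b ((v ∘ σ) t)) = (fun t => b (v t)) ∘ σ := rfl
      show w' (fun t => b ((v ∘ σ) t)) = _
      rw [h3, this]
      rw [Units.smul_def, zsmul_eq_mul])
    (by
      intro p q J
      show g.curryLeft ⁅j (b.coord q), j (b.coord p)⁆ _ = - g.curryLeft ⁅j (b.coord p), j (b.coord q)⁆ _
      rw [← lie_skew, map_neg, AlternatingMap.neg_apply])
    (by
      intro p q J σ
      have := (g.curryLeft ⁅j (b.coord p), j (b.coord q)⁆).map_perm
        (fun t : Fin n => j (b.coord (J t))) σ
      have h3 : (fun t => j (b.coord ((J ∘ σ) t))) = (fun t : Fin n => j (b.coord (J t))) ∘ σ := rfl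
      show g.curryLeft ⁅j (b.coord p), j (b.coord q)⁆ (fun t => j (b.coord ((J ∘ σ) t))) = _
      rw [h3, this]
      rw [Units.smul_def, zsmul_eq_mul])
  have e4 : w' u = 0 := by
    rw [e2]
    refine e3.trans ?_
    rw [neg_eq_zero]
    refine Finset.sum_eq_zero fun J _ => ?_
    set vJ : Fin n → L := fun t : Fin n => j (b.coord (J t)) with hvJ
    set β : E →ₗ[k] E →ₗ[k] k := (cc k E w).compr₂ (evG k E (fun t => b (J t))) with hβ
    have hβR : β ∈ Rj (L := L) (E := E) j := hw.2 _
    have hβ1 : ∀ p q : Fin (finrank k E), β (b p) (b q) =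
        w' (fun t => b ((Fin.cons p (Fin.cons q J : Fin (n + 1) → Fin (finrank k E)) : Fin (n + 2) → Fin (finrank k E)) t)) := by
      intro p q
      rw [hw']
      have h4 : (fun t => b ((Fin.cons p (Fin.cons q J : Fin (n + 1) → Fin (finrank k E)) :
          Fin (n + 2) → Fin (finrank k E)) t)) = Fin.cons (b p) (Fin.cons (b q) (fun t => b (J t))) := by
        funext t
        refine Fin.cases ?_ (fun t => ?_) t
        · rfl
        · refine Fin.cases ?_ (fun t => ?_) t
          · rfl
          · rfl
      rw [h4]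
      rfl
    have hskew : ∀ p q : Fin (finrank k E), β (b q) (b p) = - β (b p) (b q) := by
      intro p q
      have h5 := hβR.1 (b p + b q)
      have h5' : β (b p) (b p) + β (b q) (b p) + (β (b p) (b q) + β (b q) (b q)) = 0 := by
        simpa only [map_add, LinearMap.add_apply] using h5
      rw [hβR.1, hβR.1, zero_add, add_zero] at h5'
      exact eq_neg_of_add_eq_zero_left h5'
    have h6 := sum_lt_eq (finrank k E) (fun p q => β (b p) (b q) *
      g.curryLeft ⁅j (b.coord p), j (b.coord q)⁆ vJ)
      (by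
        intro p q
        show β (b q) (b p) * g.curryLeft ⁅j (b.coord q), j (b.coord p)⁆ vJ =
          β (b p) (b q) * g.curryLeft ⁅j (b.coord p), j (b.coord q)⁆ vJ
        rw [hskew, ← lie_skew, map_neg, AlternatingMap.neg_apply, neg_mul_neg])
      (by
        intro p
        show β (b p) (b p) * g.curryLeft ⁅j (b.coord p), j (b.coord p)⁆ vJ = 0
        rw [hβR.1, zero_mul])
    have h7 : ∑ p : Fin (finrank k E), ∑ q : Fin (finrank k E), β (b p) (b q) *
        g.curryLeft ⁅j (b.coord p), j (b.coord q)⁆ vJ = g.curryLeft (Br j β) vJ := by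
      let G0 : L →ₗ[k] k :=
        { toFun := fun x => g.curryLeft x vJ
          map_add' := fun x y => by rw [map_add, AlternatingMap.add_apply]
          map_smul' := fun c x => by rw [map_smul, AlternatingMap.smul_apply]; rfl }
      show _ = G0 (Br j β)
      unfold Br
      rw [map_sum]
      refine Finset.sum_congr rfl fun p _ => ?_
      have h8 : β (b p) = ∑ q : Fin (finrank k E), β (b p) (b q) • b.coord q :=
        (b.sum_dual_apply_smul_coord (β (b p))).symm
      have h9 : ⁅j (b.coord p), j (β (b p))⁆ =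
          ∑ q : Fin (finrank k E), β (b p) (b q) • ⁅j (b.coord p), j (b.coord q)⁆ := by
        conv_lhs => rw [h8]
        rw [map_sum, lie_sum]
        refine Finset.sum_congr rfl fun q _ => ?_
        rw [map_smul, lie_smul]
      rw [← hb, h9, map_sum]
      refine Finset.sum_congr rfl fun q _ => ?_
      rw [map_smul, smul_eq_mul]
      rfl
    have h10 : Br j β = 0 := hβR.2
    rw [h10, map_zero, AlternatingMap.zero_apply] at h7
    have h12 := (mul_eq_zero.1 (h6.symm.trans h7)).resolve_left h2
    refine Eq.trans ?_ h12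
    refine Finset.sum_congr rfl fun p _ => Finset.sum_congr rfl fun q _ => ?_
    split_ifs
    · rw [hβ1]
    · rfl
  exact hu (by rw [← hw', e4])

end Pool.Agent.W976.BK
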